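import Pool.Agent.N805.JG.Stm

/-!
# Project JG: density of the combinations of the functions `(t - x)⁺`
-/

set_option autoImplicit false

open MeasureTheory Filter Topology

namespace Pool.Agent.N951.JG

/-- combinations of the functions `(t - x)⁺` on the half line -/
def R (p : ℝ → ℝ) : Prop := ∃ (n : ℕ) (c t : Fin n → ℝ), (∀ b, 0 ≤ t b) ∧
  ∀ x, 0 ≤ x → p x = ∑ b, c b * max (t b - x) 0

lemma R_one (c t : ℝ) (ht : 0 ≤ t) : R fun x => c * max (t - x) 0 :=
  ⟨1, fun _ => c, fun _ => t, fun _ => ht, fun x _ => by simp⟩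

lemma R_zero : R fun _ => 0 :=
  ⟨0, fun _ => 0, fun _ => 0, fun _ => le_rfl, fun x _ => by simp⟩

lemma R_add {p q : ℝ → ℝ} (hp : R p) (hq : R q) : R fun x => p x + q x := by
  obtain ⟨n, c, t, ht, h⟩ := hp
  obtain ⟨m, c', t', ht', h'⟩ := hq
  refine ⟨n + m, Fin.append c c', Fin.append t t', fun b => ?_, fun x hx => ?_⟩
  · refine Fin.addCases (fun i => ?_) (fun i => ?_) b
    · rw [Fin.append_left]; exact ht i
    · rw [Fin.append_right]; exact ht' i
  · change p x + q x = _
    rw [Fin.sum_univ_add, h x hx, h' x hx]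
    simp only [Fin.append_left, Fin.append_right]

lemma R_sum (N : ℕ) (p : ℕ → ℝ → ℝ) (hp : ∀ b, R (p b)) :
    R fun x => ∑ b ∈ Finset.range N, p b x := by
  induction N with
  | zero => simpa using R_zero
  | succ N ih =>
    simp only [Finset.sum_range_succ]
    exact R_add ih (hp N)

/-- hat functions -/
noncomputable def hat (h : ℝ) (b : ℕ) (x : ℝ) : ℝ :=
  (max (((b + 1 : ℕ) : ℝ) * h - x) 0 - 2 * max ((b : ℝ) * h - x) 0 +
    max (((b - 1 : ℕ) : ℝ) * h - x) 0) / h

lemma hat_R (h : ℝ) (hh : 0 < h) (b : ℕ) (a : ℝ) : R fun x => a * hat h b x := by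
  have h1 := R_add (R_add (R_one (a / h) (((b + 1 : ℕ) : ℝ) * h) (by positivity))
    (R_one (-(2 * a / h)) ((b : ℝ) * h) (by positivity)))
    (R_one (a / h) (((b - 1 : ℕ) : ℝ) * h) (by positivity))
  have e : (fun x => a * hat h b x) = fun x => a / h * max (((b + 1 : ℕ) : ℝ) * h - x) 0 +
      -(2 * a / h) * max ((b : ℝ) * h - x) 0 + a / h * max (((b - 1 : ℕ) : ℝ) * h - x) 0 := by
    funext x
    unfold hat
    ring
  rw [e]
  exact h1

lemma pred_max (h : ℝ) (hh : 0 < h) (b : ℕ) (x : ℝ) (hx : 0 ≤ x) :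
    max (((b - 1 : ℕ) : ℝ) * h - x) 0 = max (((b : ℝ) - 1) * h - x) 0 := by
  cases b with
  | zero =>
    rw [max_eq_right, max_eq_right]
    · push_cast
      linarith
    · simp only [Nat.zero_sub, Nat.cast_zero]
      linarith
  | succ b =>
    congr 2
    push_cast
    simp

lemma hat_nonneg (h : ℝ) (hh : 0 < h) (b : ℕ) (x : ℝ) (hx : 0 ≤ x) : 0 ≤ hat h b x := by
  unfold hat
  rw [pred_max h hh b x hx]
  refine div_nonneg ?_ hh.le
  push_cast
  rcases max_cases (((b : ℝ) + 1) * h - x) 0 with ⟨h1, h1'⟩ | ⟨h1, h1'⟩ <;>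
  rcases max_cases ((b : ℝ) * h - x) 0 with ⟨h2, h2'⟩ | ⟨h2, h2'⟩ <;>
  rcases max_cases (((b : ℝ) - 1) * h - x) 0 with ⟨h3, h3'⟩ | ⟨h3, h3'⟩ <;>
  rw [h1, h2, h3] <;> nlinarith

lemma hat_zero (h : ℝ) (hh : 0 < h) (b : ℕ) (x : ℝ) (hx : 0 ≤ x) (hb : h ≤ |x - b * h|) :
    hat h b x = 0 := by
  unfold hat
  rw [pred_max h hh b x hx, div_eq_zero_iff]
  left
  push_cast
  rcases le_abs.1 hb with hb | hb
  · rw [max_eq_right (by nlinarith), max_eq_right (by nlinarith), max_eq_right (by nlinarith)]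
    ring
  · rw [max_eq_left (by nlinarith), max_eq_left (by nlinarith), max_eq_left (by nlinarith)]
    ring

lemma hat_sum (h : ℝ) (N : ℕ) (x : ℝ) :
    ∑ b ∈ Finset.range (N + 1), hat h b x =
      (max (((N + 1 : ℕ) : ℝ) * h - x) 0 - max ((N : ℝ) * h - x) 0) / h := by
  induction N with
  | zero =>
    rw [Finset.sum_range_one]
    unfold hat
    simp only [Nat.zero_sub]
    ring
  | succ N ih =>
    rw [Finset.sum_range_succ, ih]
    unfold hat
    simp only [Nat.add_sub_cancel]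
    ring

lemma hat_one (h : ℝ) (hh : 0 < h) (N : ℕ) (x : ℝ) (hx : x ≤ N * h) :
    ∑ b ∈ Finset.range (N + 1), hat h b x = 1 := by
  rw [hat_sum h, max_eq_left (by push_cast; nlinarith), max_eq_left (by linarith)]
  push_cast
  field_simp
  ring

/-- uniform approximation of functions which vanish far away -/
lemma approx (g : ℝ → ℝ) (hg : Continuous g) (Y : ℝ) (hY : 0 < Y) (h0 : ∀ x, Y ≤ x → g x = 0)
    (ε : ℝ) (hε : 0 < ε) : ∃ p : ℝ → ℝ, R p ∧ ∀ x, 0 ≤ x → |g x - p x| ≤ ε := by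
  have huc := (isCompact_Icc (a := (0 : ℝ)) (b := Y)).uniformContinuousOn_of_continuous
    hg.continuousOn
  rw [Metric.uniformContinuousOn_iff] at huc
  obtain ⟨δ, hδ, h1⟩ := huc ε hε
  obtain ⟨N, hN⟩ := exists_nat_gt (Y / δ)
  have hN0 : (0 : ℝ) < N := lt_trans (by positivity) hN
  set h : ℝ := Y / N with hh
  have hh0 : 0 < h := by positivity
  have hNh : (N : ℝ) * h = Y := by
    rw [hh]; field_simp
  have hhδ : h < δ := by
    rw [hh, div_lt_iff₀ hN0, mul_comm, ← div_lt_iff₀ hδ]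
    exact hN
  refine ⟨fun x => ∑ b ∈ Finset.range (N + 1), g (b * h) * hat h b x,
    R_sum _ _ fun b => hat_R h hh0 b _, fun x hx => ?_⟩
  rcases le_or_gt x Y with hxY | hxY
  · have h2 : g x - ∑ b ∈ Finset.range (N + 1), g (b * h) * hat h b x =
        ∑ b ∈ Finset.range (N + 1), (g x - g (b * h)) * hat h b x := by
      simp only [sub_mul, Finset.sum_sub_distrib]
      rw [← Finset.mul_sum, hat_one h hh0 N x (by rw [hNh]; exact hxY), mul_one]
    rw [h2]
    calc |∑ b ∈ Finset.range (N + 1), (g x - g (b * h)) * hat h b x|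
        ≤ ∑ b ∈ Finset.range (N + 1), |(g x - g (b * h)) * hat h b x| :=
          Finset.abs_sum_le_sum_abs _ _
      _ ≤ ∑ b ∈ Finset.range (N + 1), ε * hat h b x := by
          refine Finset.sum_le_sum fun b hb => ?_
          rw [abs_mul, abs_of_nonneg (hat_nonneg h hh0 b x hx)]
          rcases le_or_gt h |x - b * h| with hb2 | hb2
          · rw [hat_zero h hh0 b x hx hb2, mul_zero, mul_zero]
          · refine mul_le_mul_of_nonneg_right ?_ (hat_nonneg h hh0 b x hx)
            have hbN : (b : ℝ) ≤ N := by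
              exact_mod_cast Nat.lt_succ_iff.1 (Finset.mem_range.1 hb)
            have h3 := h1 x ⟨hx, hxY⟩ (b * h) ⟨by positivity, by rw [← hNh]; gcongr⟩ (by
              rw [Real.dist_eq]; linarith)
            rw [Real.dist_eq] at h3
            exact h3.le
      _ = ε := by
          rw [← Finset.mul_sum, hat_one h hh0 N x (by rw [hNh]; exact hxY), mul_one]
  · have h2 : ∑ b ∈ Finset.range (N + 1), g (b * h) * hat h b x = 0 := by
      refine Finset.sum_eq_zero fun b hb => ?_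
      have hbN : b ≤ N := Nat.lt_succ_iff.1 (Finset.mem_range.1 hb)
      rcases hbN.lt_or_eq with hlt | heq
      · rw [hat_zero h hh0 b x hx, mul_zero]
        have h3 : (b : ℝ) + 1 ≤ N := by exact_mod_cast hlt
        refine le_trans ?_ (le_abs_self _)
        nlinarith
      · rw [heq, hNh, h0 Y le_rfl, zero_mul]
    change |g x - ∑ b ∈ Finset.range (N + 1), g (b * h) * hat h b x| ≤ ε
    rw [h2, h0 x hxY.le, sub_zero, abs_zero]
    exact hε.le

theorem DENS : Pool.Agent.N805.JG.S_DENS := by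
  intro g C k hg hgC ε hε
  set X : ℝ := max (2 * C / ε) 0 with hX
  have hX0 : 0 ≤ X := le_max_right _ _
  have hCX : C ≤ ε / 2 * (1 + X) := by
    have h1 : 2 * C / ε ≤ X := le_max_left _ _
    rw [div_le_iff₀ hε] at h1
    nlinarith
  set χ : ℝ → ℝ := fun x => max (min (X + 1 - x) 1) 0 with hχ
  have hχ0 : ∀ x, 0 ≤ χ x := fun x => le_max_right _ _
  have hχ1 : ∀ x, χ x ≤ 1 := fun x => max_le (min_le_right _ _) zero_le_one
  obtain ⟨p, hp, hpa⟩ := approx (fun x => g x * χ x) (by fun_prop) (X + 1) (by linarith)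
    (fun x hx => by
      have : χ x = 0 := max_eq_right ((min_le_left _ _).trans (by linarith))
      rw [this, mul_zero]) (ε / 2) (by positivity)
  obtain ⟨n, c, t, ht, h⟩ := hp
  refine ⟨n, c, t, ht, fun x hx => ?_⟩
  rw [← h x hx]
  have hone : (1 : ℝ) ≤ (1 + x) ^ (k + 1) := one_le_pow₀ (by linarith)
  have h1 := hpa x hx
  have h2 : |g x - g x * χ x| ≤ ε / 2 * (1 + x) ^ (k + 1) := by
    rcases le_or_gt x X with hxX | hxX
    · have : χ x = 1 := by
        simp only [hχ]
        rw [min_eq_right (by linarith), max_eq_left zero_le_one]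
      rw [this, mul_one, sub_self, abs_zero]
      positivity
    · have e : g x - g x * χ x = g x * (1 - χ x) := by ring
      rw [e, abs_mul, abs_of_nonneg (by linarith [hχ1 x] : 0 ≤ 1 - χ x)]
      calc |g x| * (1 - χ x) ≤ |g x| * 1 := by
            gcongr
            linarith [hχ0 x]
        _ ≤ C * (1 + x) ^ k := by rw [mul_one]; exact hgC x hx
        _ ≤ (ε / 2 * (1 + x)) * (1 + x) ^ k := by
            gcongr
            refine hCX.trans ?_
            gcongr
        _ = ε / 2 * (1 + x) ^ (k + 1) := by ring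
  calc |g x - p x| = |(g x - g x * χ x) + (g x * χ x - p x)| := by congr 1; ring
    _ ≤ |g x - g x * χ x| + |g x * χ x - p x| := abs_add_le _ _
    _ ≤ ε / 2 * (1 + x) ^ (k + 1) + ε / 2 := add_le_add h2 h1
    _ ≤ ε / 2 * (1 + x) ^ (k + 1) + ε / 2 * (1 + x) ^ (k + 1) := by nlinarith
    _ = ε * (1 + x) ^ (k + 1) := by ring

end Pool.Agent.N951.JG
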